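import Mathlib
import Pool.Agent.MP_bcf1b9_lc.Defs
import Pool.Agent.Mg.F3c2488p.Gb3a2fc

namespace Pool.Agent.Results.MP_bcf1b9_lc.SigmaOne

open Pool.Agent.MP_bcf1b9_lc

/-- Finiteness of the update evolution model modulo bisimulation is `Σ₁`-complete; hardness holds
for one fixed action model with one agent and atomic preconditions. -/
theorem result : REPred FinEv ∧ ∃ a : AC, (∀ x ∈ a.1, ∃ p, x = enc (Fm.atom p)) ∧
    (∀ t ∈ a.2, t.1 = 0) ∧ ∀ P : ℕ → Prop, REPred P → ∃ f : ℕ → MC, Computable f ∧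
      (∀ n, ∀ t ∈ (f n).2.1, t.1 = 0) ∧ ∀ n, P n ↔ FinEv (f n, a) :=
  main

end Pool.Agent.Results.MP_bcf1b9_lc.SigmaOne
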