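import Mathlib
import Pool.Agent.MP_bcf1b9_lc.Defs
import Pool.Agent.MP_bcf1b9_lc.SDefs
import Pool.Agent.Mg.F3c2488p.G14ae7c

namespace Pool.Agent.Results.MP_bcf1b9_lc.SigmaOneS5

open Pool.Agent.MP_bcf1b9_lc

/-- Finiteness of the update evolution model modulo bisimulation is `Σ₁`-complete, and so is its
restriction to inputs all of whose relations are equivalence relations, for every number of agents
from two on; hardness holds for one fixed action model. -/
theorem result : REPred FinEv ∧ ∀ k : ℕ, 2 ≤ k → (REPred fun c => Inst k c ∧ FinEv c) ∧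
    ∃ a : AC, ∀ P : ℕ → Prop, REPred P →
      ∃ f : ℕ → MC, Computable f ∧ (∀ n, Inst k (f n, a)) ∧ ∀ n, P n ↔ FinEv (f n, a) :=
  ⟨re_finEv, main_s5⟩

end Pool.Agent.Results.MP_bcf1b9_lc.SigmaOneS5
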